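import Pool.Agent.H10.RIC.Stmts
import Pool.Agent.H70.PW.PWF

/-!
# Row STR of the board `ric`: structure of the coordinates which are not rich
-/

set_option autoImplicit false

namespace Pool.RIC

open Finset Pool.Agent.H98.ABCR Pool.SHA

namespace STRaux

theorem pset {X : ℝ} (D : Finset ℕ) (f : ℕ → ℕ) (hy : ∀ d ∈ D, 1 ≤ d ∧ (d : ℝ) ≤ X) :
    Pool.PW.PowProd D.card X (∏ d ∈ D, d ^ f d) := by
  classical
  induction D using Finset.induction_on with
  | empty => simpa using Pool.PW.WF.pp_one X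
  | insert a s ha ih =>
    rw [Finset.card_insert_of_notMem ha, Finset.prod_insert ha]
    exact Pool.PW.WF.pp_cons (ih fun d hd => hy d (Finset.mem_insert_of_mem hd)) _ _
      (hy a (Finset.mem_insert_self _ _)).1 (hy a (Finset.mem_insert_self _ _)).2

/-- a subset with a product in a window -/
theorem sub {T : ℝ} (hT : 1 ≤ T) (H : Finset ℕ) (hH : ∀ p ∈ H, (p : ℝ) ≤ T)
    (h : T < ((∏ p ∈ H, p : ℕ) : ℝ)) :
    ∃ S ⊆ H, T < ((∏ p ∈ S, p : ℕ) : ℝ) ∧ ((∏ p ∈ S, p : ℕ) : ℝ) ≤ T * T := by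
  classical
  induction H using Finset.induction_on with
  | empty =>
    rw [Finset.prod_empty, Nat.cast_one] at h
    linarith
  | insert a s ha ih =>
    by_cases hs : T < ((∏ p ∈ s, p : ℕ) : ℝ)
    · obtain ⟨S, hS, h1, h2⟩ := ih (fun p hp => hH p (Finset.mem_insert_of_mem hp)) hs
      exact ⟨S, hS.trans (Finset.subset_insert _ _), h1, h2⟩
    · refine ⟨insert a s, subset_rfl, h, ?_⟩
      rw [Finset.prod_insert ha, Nat.cast_mul]
      exact mul_le_mul (hH a (Finset.mem_insert_self _ _)) (not_lt.mp hs) (by positivity)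
        (by linarith)

theorem rad_mono {m n : ℕ} (h : m ∣ n) (hn : n ≠ 0) : rad m ≤ rad n := by
  unfold rad
  refine Finset.prod_le_prod_of_subset_of_one_le' (Nat.primeFactors_mono h hn) ?_
  intro p hp _
  exact (Nat.prime_of_mem_primeFactors hp).one_lt.le

theorem rad_prod (S : Finset ℕ) (hS : ∀ p ∈ S, p.Prime) (f : ℕ → ℕ) :
    rad (∏ p ∈ S, p ^ f p) ≤ ∏ p ∈ S, p := by
  unfold rad
  refine Finset.prod_le_prod_of_subset_of_one_le' ?_ ?_
  · intro r hr
    have hrp := Nat.prime_of_mem_primeFactors hr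
    obtain ⟨p, hp, hd⟩ := hrp.prime.exists_mem_finset_dvd (Nat.dvd_of_mem_primeFactors hr)
    have := (Nat.prime_dvd_prime_iff_eq hrp (hS p hp)).mp (hrp.dvd_of_dvd_pow hd)
    rw [this]; exact hp
  · intro p hp _
    exact (hS p hp).one_lt.le

end STRaux

open STRaux

theorem str_thm : S_STR := by
  classical
  intro ν hν hν1
  set N0 : ℕ := ⌈2 / ν⌉₊ with hN0
  set E : ℕ := ⌈6 / ν⌉₊ with hE
  have hEν : 6 ≤ (E : ℝ) * ν := by
    have := Nat.le_ceil (6 / ν)
    rw [← hE, div_le_iff₀ hν] at this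
    exact this
  refine ⟨N0 + 1, (E : ℝ) + 3, by
    have : (0 : ℝ) ≤ E := by positivity
    linarith, ?_⟩
  intro X n hX hn hR
  have hX0 : 0 < X := by linarith
  set A : ℝ := (E : ℝ) + 3 with hA
  have hE0 : (0 : ℝ) ≤ E := by positivity
  have hA1 : 1 ≤ A := by rw [hA]; linarith
  have hXA : X ≤ X ^ A := by
    calc X = X ^ (1 : ℝ) := (Real.rpow_one X).symm
      _ ≤ X ^ A := Real.rpow_le_rpow_of_exponent_le hX hA1
  have hXA1 : 1 ≤ X ^ A := hX.trans hXA
  set T : ℝ := X ^ (ν / 2) with hT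
  have hT1 : 1 ≤ T := Real.one_le_rpow hX (by linarith)
  have hTT : T * T = X ^ ν := by
    rw [hT, ← Real.rpow_add hX0]
    congr 1; ring
  set f := n.factorization with hf
  set Sm : Finset ℕ := n.primeFactors.filter (fun p : ℕ => (p : ℝ) ≤ T) with hSm
  set La : Finset ℕ := n.primeFactors.filter (fun p : ℕ => ¬ (p : ℝ) ≤ T) with hLa
  have hSs : Sm ⊆ n.primeFactors := Finset.filter_subset _ _
  have hLs : La ⊆ n.primeFactors := Finset.filter_subset _ _
  have hprime : ∀ S : Finset ℕ, S ⊆ n.primeFactors → ∀ p ∈ S, p.Prime := fun S hS p hp =>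
    Nat.prime_of_mem_primeFactors (hS hp)
  have hradS : ∀ S : Finset ℕ, S ⊆ n.primeFactors → ∏ p ∈ S, p ≤ rad n := by
    intro S hS
    unfold rad
    refine Finset.prod_le_prod_of_subset_of_one_le' hS ?_
    intro p hp _
    exact (Nat.prime_of_mem_primeFactors hp).one_lt.le
  have hdvd : ∀ S : Finset ℕ, ∏ p ∈ S, p ^ f p ∣ n := fun S => Pool.PW.WF.prod_dvd S n hn.ne'
  have hpos : ∀ S : Finset ℕ, 1 ≤ ∏ p ∈ S, p ^ f p := fun S =>
    Nat.one_le_iff_ne_zero.mpr (fun h0 => hn.ne' (Nat.eq_zero_of_zero_dvd (h0 ▸ hdvd S)))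
  have hself : n = (∏ p ∈ Sm, p ^ f p) * ∏ p ∈ La, p ^ f p := by
    conv_lhs => rw [← Nat.prod_factorization_pow_eq_self hn.ne']
    exact (Finset.prod_filter_mul_prod_filter_not _ _ _).symm
  -- the number of the large primes
  have hcard : La.card ≤ N0 := by
    rcases Nat.eq_zero_or_pos La.card with h0 | h0
    · rw [h0]; exact Nat.zero_le _
    have h1 : T ^ La.card ≤ ((∏ p ∈ La, p : ℕ) : ℝ) := by
      rw [Nat.cast_prod, ← Finset.prod_const]
      refine Finset.prod_le_prod (fun p _ => by linarith) fun p hp => ?_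
      exact (not_le.mp (Finset.mem_filter.mp hp).2).le
    have h2 : T ^ La.card ≤ X := by
      refine h1.trans (le_trans ?_ hR)
      exact_mod_cast hradS La hLs
    rcases hX.eq_or_lt with h3 | h3
    · -- `X = 1`: there is no prime
      exfalso
      obtain ⟨p, hp⟩ := Finset.card_pos.mp h0
      have hpp := hprime La hLs p hp
      have h4 : p ≤ rad n := by
        calc p = ∏ q ∈ ({p} : Finset ℕ), q := by simp
          _ ≤ rad n := hradS _ (by
            intro q hq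
            rw [Finset.mem_singleton] at hq
            rw [hq]; exact hLs hp)
      have h5 : (2 : ℝ) ≤ p := by exact_mod_cast hpp.two_le
      have h6 : (p : ℝ) ≤ rad n := by exact_mod_cast h4
      linarith
    · have h4 : X ^ (ν / 2 * La.card) ≤ X ^ (1 : ℝ) := by
        rw [Real.rpow_one, Real.rpow_mul hX0.le, Real.rpow_natCast]
        exact h2
      have h5 : ν / 2 * La.card ≤ 1 := (Real.rpow_le_rpow_left_iff h3).mp h4
      have h6 : (La.card : ℝ) ≤ 2 / ν := by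
        rw [le_div_iff₀ hν]
        nlinarith
      have h7 : (La.card : ℝ) ≤ (N0 : ℝ) := h6.trans (Nat.le_ceil _)
      exact_mod_cast h7
  have hLaX : ∀ p ∈ La, 1 ≤ p ∧ (p : ℝ) ≤ X ^ A := by
    intro p hp
    have hpp := hprime La hLs p hp
    refine ⟨hpp.one_lt.le, le_trans (le_trans ?_ hR) hXA⟩
    have h4 : p ≤ rad n := by
      calc p = ∏ q ∈ ({p} : Finset ℕ), q := by simp
        _ ≤ rad n := hradS _ (by
          intro q hq
          rw [Finset.mem_singleton] at hq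
          rw [hq]; exact hLs hp)
    exact_mod_cast h4
  have hppL : Pool.PW.PowProd N0 (X ^ A) (∏ p ∈ La, p ^ f p) :=
    Pool.PW.WF.pp_mono hXA1 (pset La f hLaX) hcard
  refine ⟨⟨∏ p ∈ Sm, p ^ f p, ∏ p ∈ La, p ^ f p, hself, rad_mono (hdvd Sm) hn.ne',
    Pool.PW.WF.pp_mono hXA1 hppL (Nat.le_succ _)⟩, ?_⟩
  intro hrich
  have hnr : ∀ S : Finset ℕ, S ⊆ n.primeFactors → ((∏ p ∈ S, p : ℕ) : ℝ) ≤ X ^ ν →
      ((∏ p ∈ S, p ^ f p : ℕ) : ℝ) < X ^ (3 : ℝ) := by
    intro S hS h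
    by_contra hc
    rw [not_lt] at hc
    refine hrich ⟨∏ p ∈ S, p ^ f p, hdvd S, hc, le_trans ?_ h⟩
    exact_mod_cast rad_prod S (hprime S hS) f
  set Hi := Sm.filter (fun p => E ≤ f p) with hHi
  set Lo := Sm.filter (fun p => ¬ E ≤ f p) with hLo
  have hHs : Hi ⊆ n.primeFactors := (Finset.filter_subset _ _).trans hSs
  have hLos : Lo ⊆ n.primeFactors := (Finset.filter_subset _ _).trans hSs
  -- the radical of the part with large exponents
  have hradH : ((∏ p ∈ Hi, p : ℕ) : ℝ) ≤ T := by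
    by_contra hc
    rw [not_le] at hc
    obtain ⟨S, hS, h1, h2⟩ := sub hT1 Hi (fun p hp =>
      (Finset.mem_filter.mp (Finset.mem_filter.mp hp).1).2) hc
    rw [hTT] at h2
    have h3 := hnr S (hS.trans hHs) h2
    have h4 : (∏ p ∈ S, p) ^ E ≤ ∏ p ∈ S, p ^ f p := by
      rw [← Finset.prod_pow]
      refine Finset.prod_le_prod' fun p hp => ?_
      exact Nat.pow_le_pow_right (hprime S (hS.trans hHs) p hp).pos
        (Finset.mem_filter.mp (hS hp)).2
    have h5 : X ^ (3 : ℝ) ≤ ((∏ p ∈ S, p : ℕ) : ℝ) ^ E := by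
      calc X ^ (3 : ℝ) ≤ X ^ (ν / 2 * E) :=
            Real.rpow_le_rpow_of_exponent_le hX (by nlinarith)
        _ = T ^ E := by rw [hT, Real.rpow_mul hX0.le, Real.rpow_natCast]
        _ ≤ ((∏ p ∈ S, p : ℕ) : ℝ) ^ E := pow_le_pow_left₀ (by linarith) h1.le _
    have h6 : ((∏ p ∈ S, p : ℕ) : ℝ) ^ E ≤ ((∏ p ∈ S, p ^ f p : ℕ) : ℝ) := by exact_mod_cast h4
    linarith
  have hTν : T ≤ X ^ ν := by
    rw [← hTT]
    nlinarith
  have hHi3 := hnr Hi hHs (hradH.trans hTν)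
  have hLoE : ((∏ p ∈ Lo, p ^ f p : ℕ) : ℝ) ≤ X ^ (E : ℝ) := by
    have h1 : ∏ p ∈ Lo, p ^ f p ≤ (rad n) ^ E := by
      calc ∏ p ∈ Lo, p ^ f p ≤ ∏ p ∈ Lo, p ^ E := by
            refine Finset.prod_le_prod' fun p hp => ?_
            exact Nat.pow_le_pow_right (hprime Lo hLos p hp).pos
              (not_le.mp (Finset.mem_filter.mp hp).2).le
        _ = (∏ p ∈ Lo, p) ^ E := Finset.prod_pow _ _ _
        _ ≤ (rad n) ^ E := Nat.pow_le_pow_left (hradS Lo hLos) _
    calc ((∏ p ∈ Lo, p ^ f p : ℕ) : ℝ) ≤ (((rad n) ^ E : ℕ) : ℝ) := by exact_mod_cast h1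
      _ = (rad n : ℝ) ^ E := by push_cast; rfl
      _ ≤ X ^ E := pow_le_pow_left₀ (by positivity) hR _
      _ = X ^ (E : ℝ) := (Real.rpow_natCast _ _).symm
  have hSmsplit : ∏ p ∈ Sm, p ^ f p = (∏ p ∈ Hi, p ^ f p) * ∏ p ∈ Lo, p ^ f p :=
    (Finset.prod_filter_mul_prod_filter_not _ _ _).symm
  have hSmA : ((∏ p ∈ Sm, p ^ f p : ℕ) : ℝ) ≤ X ^ A := by
    rw [hSmsplit, Nat.cast_mul, hA, Real.rpow_add hX0, mul_comm (X ^ (E : ℝ))]
    exact mul_le_mul hHi3.le hLoE (by positivity) (by positivity)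
  have := Pool.PW.WF.pp_cons hppL (∏ p ∈ Sm, p ^ f p) 1 (hpos Sm) hSmA
  rw [pow_one, ← hself] at this
  exact this

end Pool.RIC
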